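import Mathlib
import Pool.Agent.Lib.MP_cd184e_ag.B.Final
import Pool.Agent.Lib.MP_cd184e_ag.T.KS
import Pool.Agent.Lib.MP_cd184e_ag.T.Sp
import Pool.Agent.Lib.MP_cd184e_ag.T.Tilting

namespace Pool.Agent.Results.MP_cd184e_ag.Counterexample

open CategoryTheory AlgebraicGeometry Pool.Agent.Lib.MP_cd184e_ag

/-- Over every perfect field of characteristic three that contains a square root of `-1` there is
a smooth projective variety `Proj S` whose tangent sheaf has nonzero first cohomology and whose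
Frobenius pushforward of the structure sheaf is tilting. -/
theorem result (k : Type) [Field k] [CharP k 3] [PerfectField k] (hi : ∃ i : k, i ^ 2 = -1) :
    ∃ (S : Type) (_ : CommRing S) (_ : Algebra k S) (𝒜 : ℕ → Submodule k S)
      (_ : GradedAlgebra 𝒜) (n : ℕ) (x : Fin n → S), (∀ l, x l ∈ 𝒜 1) ∧
      Algebra.adjoin k (Set.range x) = ⊤ ∧ IsIntegral (Proj 𝒜) ∧ Smooth (B.strMap 𝒜) ∧
      Nontrivial (Sheaf.H (B.tangentSheaf (B.strMap 𝒜)) 1) ∧
      B.IsTiltingSheaf
        (B.frobPush (Proj 𝒜) 3 Nat.prime_three (B.cast_top_eq_zero (B.strMap 𝒜) 3)) := by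
  obtain ⟨i, hi⟩ := hi
  obtain ⟨ys, hy, hl⟩ := T.noZero hi
  have := (T.chart hi (T.ctx hi).j0).2.1
  exact B.proj_of_projVar 3 (T.V18 hi)
    (fun j hj => ⟨(T.chart hi ⟨j, hj⟩).2.2.2, (T.chart hi ⟨j, hj⟩).2.1⟩) (T.not_H1 hi)
    (T.tilting_of_data (T.data (T.ctx hi)) hy hl (fun j => (T.chart hi j).2.2.1) T.tyF T.tyF_surj
      (T.splitting (T.ctx hi) (T.A_eq hi) (T.chart hi _).1))

end Pool.Agent.Results.MP_cd184e_ag.Counterexample
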