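import Mathlib
import Pool.Agent.Lib.MP_cd184e_ag.Main

namespace Pool.Agent.Results.MP_cd184e_ag.Toric

open Pool.Agent.Lib.MP_cd184e_ag

theorem result (k : Type) [Field k] (p : ℕ) [Fact p.Prime] [CharP k p] (n : ℕ) (ι : Type)
    [Fintype ι] (a : ι → Fin n → ℤ)
    (hgen : AddSubgroup.closure {m | ∃ i j, m = a j - a i} = ⊤)
    (hsm : ∀ i, Algebra.Smooth k (chart k a i)) (hT : ¬ H1 tang (chart k a))
    (e : ℕ) (he : 1 ≤ e) :
    ¬ H1 (fend (p ^ e)) (chart k a) ∨ ¬ H2 (fend (p ^ e)) (chart k a) := by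
  by_contra h
  push Not at h
  exact hT (main p e he a hgen hsm h.1 h.2)

end Pool.Agent.Results.MP_cd184e_ag.Toric
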